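import Mathlib

/-!
# `MP_a08742_co`: the independence number of odd strong powers of the 5-cycle

For every odd `n ≥ 5` the independence number of the `n`-th strong power of the 5-cycle is at least
`51 * 5 ^ ((n - 5) / 2)`, hence larger than the conjectured value `2 * 5 ^ ((n - 1) / 2)`.
-/

set_option autoImplicit false

namespace Pool.Agent.Results.MP_a08742_co.EveryOddPower

/-- The `n`-th strong power of the 5-cycle: its vertices are the words of length `n` over
`ℤ/5ℤ`, and two distinct words are adjacent iff they differ by `0`, `1` or `-1` in every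
coordinate. -/
def strongPower (n : ℕ) : SimpleGraph (Fin n → ZMod 5) where
  Adj x y := x ≠ y ∧ ∀ i, x i - y i = 0 ∨ x i - y i = 1 ∨ x i - y i = -1
  symm := by
    constructor
    intro x y h
    refine ⟨h.1.symm, fun i => ?_⟩
    have key : ∀ a b : ZMod 5, (a - b = 0 ∨ a - b = 1 ∨ a - b = -1) →
        (b - a = 0 ∨ b - a = 1 ∨ b - a = -1) := by decide
    exact key _ _ (h.2 i)
  loopless := ⟨fun x h => h.1 rfl⟩

/-- Any two different words of the set differ by `2` or `3` in some coordinate. -/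
def Far {n : ℕ} (A : Finset (Fin n → ZMod 5)) : Prop :=
  ∀ x ∈ A, ∀ y ∈ A, x ≠ y → ∃ i, ¬ (x i - y i = 0 ∨ x i - y i = 1 ∨ x i - y i = -1)

lemma Far.le {n : ℕ} {A : Finset (Fin n → ZMod 5)} (h : Far A) :
    A.card ≤ (strongPower n).indepNum := by
  refine SimpleGraph.IsIndepSet.card_le_indepNum (t := A) ?_
  intro x hx y hy hxy hadj
  obtain ⟨i, hi⟩ := h x hx y hy hxy
  exact hi (hadj.2 i)

/-- Two more coordinates `(a, 2 a)`: five times as many words. -/
def ext {n : ℕ} (p : ZMod 5 × (Fin n → ZMod 5)) : Fin (n + 2) → ZMod 5 :=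
  Fin.cons p.1 (Fin.cons (2 * p.1) p.2)

lemma ext_inj {n : ℕ} : Function.Injective (ext (n := n)) := by
  rintro ⟨a, x⟩ ⟨b, y⟩ h
  have h' := Fin.cons_injective2 h
  have h'' := Fin.cons_injective2 h'.2
  simp only [Prod.mk.injEq]
  exact ⟨h'.1, h''.2⟩

lemma Far.step {n : ℕ} {A : Finset (Fin n → ZMod 5)} (h : Far A) :
    ∃ B : Finset (Fin (n + 2) → ZMod 5), Far B ∧ B.card = 5 * A.card := by
  classical
  refine ⟨(Finset.univ ×ˢ A).image ext, ?_, ?_⟩
  · intro x hx y hy hxy
    simp only [Finset.mem_image, Finset.mem_product, Finset.mem_univ, true_and] at hx hy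
    obtain ⟨⟨a, u⟩, hu, rfl⟩ := hx
    obtain ⟨⟨b, v⟩, hv, rfl⟩ := hy
    by_cases hab : a = b
    · subst hab
      have huv : u ≠ v := fun e => hxy (by rw [e])
      obtain ⟨i, hi⟩ := h u hu v hv huv
      exact ⟨i.succ.succ, by simpa [ext] using hi⟩
    · have key : ∀ a b : ZMod 5, a ≠ b →
          (¬ (a - b = 0 ∨ a - b = 1 ∨ a - b = -1)) ∨
            ¬ (2 * a - 2 * b = 0 ∨ 2 * a - 2 * b = 1 ∨ 2 * a - 2 * b = -1) := by decide
      rcases key a b hab with h1 | h1
      · exact ⟨0, by simpa [ext] using h1⟩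
      · exact ⟨1, by
          have : (1 : Fin (n + 2)) = Fin.succ 0 := rfl
          rw [this]
          simpa [ext] using h1⟩
  · rw [Finset.card_image_of_injective _ ext_inj, Finset.card_product, Finset.card_univ,
      ZMod.card]

/-- The word whose `i`-th letter is the `i`-th digit of `x` in base five. -/
def word (x : ℕ) : Fin 5 → ZMod 5 := fun i => ((x / 5 ^ (i : ℕ) : ℕ) : ZMod 5)

/-- Codes (in base five) of the 51 words: the word 11111 and ten orbits of the cyclic shift. -/
def codes : List ℕ := [71, 141, 249, 263, 304, 327, 355, 401, 512, 598, 639, 653, 705, 781, 813,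
  941, 1064, 1212, 1245, 1315, 1352, 1492, 1520, 1548, 1581, 1599, 1608, 1635, 1657, 1747, 1775,
  1792, 1927, 1994, 2005, 2037, 2184, 2196, 2454, 2487, 2549, 2560, 2627, 2712, 2819, 2898, 2936,
  2990, 3009, 3063, 3101]

/-- In some coordinate the two words differ by two or three modulo five. -/
def far (x y : ℕ) : Bool := (List.range 5).any fun i =>
  (x / 5 ^ i % 5 + 5 - y / 5 ^ i % 5) % 5 == 2 || (x / 5 ^ i % 5 + 5 - y / 5 ^ i % 5) % 5 == 3

lemma codes_far : ∀ x ∈ codes, ∀ y ∈ codes, x = y ∨ far x y = true := by decide +kernel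

lemma codes_card : codes.toFinset.card = 51 := by decide +kernel

lemma far_spec {x y : ℕ} (h : far x y = true) : ∃ i : Fin 5,
    ¬ (word x i - word y i = 0 ∨ word x i - word y i = 1 ∨ word x i - word y i = -1) := by
  simp only [far, List.any_eq_true, List.mem_range, Bool.or_eq_true, beq_iff_eq] at h
  obtain ⟨i, hi, h⟩ := h
  refine ⟨⟨i, hi⟩, ?_⟩
  have hx : word x ⟨i, hi⟩ = ((x / 5 ^ i % 5 : ℕ) : ZMod 5) := by
    simp [word, ZMod.natCast_mod]
  have hy : word y ⟨i, hi⟩ = ((y / 5 ^ i % 5 : ℕ) : ZMod 5) := by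
    simp [word, ZMod.natCast_mod]
  rw [hx, hy]
  have h1 : x / 5 ^ i % 5 < 5 := Nat.mod_lt _ (by norm_num)
  have h2 : y / 5 ^ i % 5 < 5 := Nat.mod_lt _ (by norm_num)
  generalize x / 5 ^ i % 5 = a at *
  generalize y / 5 ^ i % 5 = b at *
  interval_cases a <;> interval_cases b <;> first | omega | decide

lemma exists_far : ∃ A : Finset (Fin 5 → ZMod 5), Far A ∧ A.card = 51 := by
  classical
  have hinj : Set.InjOn word (codes.toFinset : Set ℕ) := by
    intro x hx y hy hxy
    simp only [List.coe_toFinset, Set.mem_ofPred_eq] at hx hy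
    rcases codes_far x hx y hy with h | h
    · exact h
    · obtain ⟨i, hi⟩ := far_spec h
      exact absurd (Or.inl (by rw [hxy, sub_self])) hi
  refine ⟨codes.toFinset.image word, ?_, ?_⟩
  · intro x hx y hy hxy
    simp only [Finset.mem_image, List.mem_toFinset] at hx hy
    obtain ⟨u, hu, rfl⟩ := hx
    obtain ⟨v, hv, rfl⟩ := hy
    rcases codes_far u hu v hv with h | h
    · exact absurd (by rw [h]) hxy
    · exact far_spec h
  · rw [Finset.card_image_of_injOn hinj, codes_card]

lemma exists_far' (k : ℕ) :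
    ∃ A : Finset (Fin (5 + 2 * k) → ZMod 5), Far A ∧ A.card = 51 * 5 ^ k := by
  induction k with
  | zero => simpa using exists_far
  | succ k ih =>
    obtain ⟨A, hA, hc⟩ := ih
    obtain ⟨B, hB, hBc⟩ := hA.step
    exact ⟨B, hB, by rw [hBc, hc]; ring⟩

/-- For every odd `n ≥ 5` the independence number of the `n`-th strong power of the 5-cycle is at
least `51 * 5 ^ ((n - 5) / 2)`; in particular it is larger than `2 * 5 ^ ((n - 1) / 2)`. -/
theorem result (n : ℕ) (hodd : Odd n) (hn : 5 ≤ n) :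
    51 * 5 ^ ((n - 5) / 2) ≤ (strongPower n).indepNum ∧
      2 * 5 ^ ((n - 1) / 2) < (strongPower n).indepNum := by
  obtain ⟨k, rfl⟩ : ∃ k, n = 5 + 2 * k := by
    obtain ⟨j, rfl⟩ := hodd
    exact ⟨j - 2, by omega⟩
  obtain ⟨A, hA, hc⟩ := exists_far' k
  have h := hA.le
  rw [hc] at h
  have e1 : (5 + 2 * k - 5) / 2 = k := by omega
  have e2 : (5 + 2 * k - 1) / 2 = k + 2 := by omega
  rw [e1, e2]
  refine ⟨h, lt_of_lt_of_le ?_ h⟩
  have : 0 < 5 ^ k := by positivity
  rw [pow_add]
  omega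

end Pool.Agent.Results.MP_a08742_co.EveryOddPower
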